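import Mathlib
import Pool.Agent.L5helper98.AN.B3

/-!
# The exact order of the norm of `T ^ n` on the angular classes `k < n`

Let `f` be of angular type `k`: `f(a z) = a ^ k f(z)` for `|a| = 1`.  For `p ≥ 2`, `n ≥ 1` and every
integer `k < n` the norm of `T ^ n` on these functions of `L ^ p` has the exact order
`λ ^ (1/2 - 1/p)`, `λ = n (n - k) / (2 n - k)`, with constants that depend on nothing: since
`min(n, n - k) / 2 ≤ λ ≤ min(n, n - k)`, the order is `min(n, n - k) ^ (1/2 - 1/p)`.  (For `k = n`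
the operator is an isometry of `L ^ p`.)  So on half of all angular classes, radial functions and all
negative frequencies included, the power of `n` is at most half of the exponent `1 - 2/p` of the
question, and the norm stays bounded as `p → ∞`.

Proof.  By duality one has to bound on `L ^ q(0, ∞)`, `q ≤ 2` the conjugate exponent, the operator
`g ↦ g - ∫_t^∞ S(t / s) g(s) ds / s`, `S(u) = u ^ (m / 2) ∑_{j < N} (2 j + m + 1) P_j(u)`, where
`N = min(n, n - k)`, `m = |k|` and the `P_j` are the orthogonal polynomials of the weight `u ^ m` on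
the unit interval, `P_j(1) = 1`.  It is an isometry on `L ^ 2`.  Upper bound: the `L ¹` norm of `S`
is at most `40 √λ` uniformly (two Sonin functions near `u = 1`, Christoffel–Darboux and
Cauchy–Schwarz elsewhere), and interpolation.  Lower bound: the operator maps
`u ^ (N + m / 2)` on the unit interval to `w = u ^ (m / 2) P_N(u)`, and `‖w‖_1` on an interval of
length `O(λ / (2 N + m))` at `u = 1` is large, by Pohozaev's identity, Markov's inequality and the
bound of Sonin's function.
-/

set_option autoImplicit false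

open MeasureTheory

namespace Pool.Agent.Results.MP_3dd6d4_an.AngularOrder

/-- The `n`-th power of the Beurling transform of a Schwartz function: the Fourier multiplier with
symbol `(conj ξ / ξ) ^ n`, in the literal form of the frozen statement. -/
noncomputable def T (n : ℕ) (f : SchwartzMap ℂ ℂ) (z : ℂ) : ℂ :=
  ∫ ξ : ℂ,
    Complex.exp (2 * (Real.pi : ℂ) * Complex.I * ((z.re * ξ.re + z.im * ξ.im : ℝ) : ℂ)) *
      ((starRingEnd ℂ ξ / ξ) ^ n *
        ∫ w : ℂ, Complex.exp (-(2 * (Real.pi : ℂ) * Complex.I *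
          ((w.re * ξ.re + w.im * ξ.im : ℝ) : ℂ))) * f w)

/-- Functions of angular type `k`. -/
def Angular (k : ℤ) (f : SchwartzMap ℂ ℂ) : Prop := ∀ a z : ℂ, ‖a‖ = 1 → f (a * z) = a ^ k * f z

/-- `λ = n (n - k) / (2 n - k)`, which is between half of `min(n, n - k)` and `min(n, n - k)`. -/
noncomputable def lam (n : ℕ) (k : ℤ) : ℝ := (n : ℝ) * ((n : ℝ) - k) / (2 * n - k)

/-- For all integers `n ≥ 1`, `k < n` and all real `p ≥ 2`: `‖T ^ n f‖_p ≤ (40 √λ) ^ (1 - 2/p) ‖f‖_p`
for all `f` of angular type `k`, and `‖T ^ n f‖_p > (1/3000) λ ^ (1/2 - 1/p) ‖f‖_p` for some `f` of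
angular type `k`; here `λ = n (n - k) / (2 n - k)`. -/
theorem result : ∀ (n : ℕ) (k : ℤ), 1 ≤ n → k < n →
    (min (n : ℝ) (n - k) / 2 ≤ lam n k ∧ lam n k ≤ min (n : ℝ) (n - k)) ∧
    ∀ p : ℝ, 2 ≤ p →
    (∀ f : SchwartzMap ℂ ℂ, Angular k f →
      eLpNorm (T n f) (ENNReal.ofReal p) volume ≤
        ENNReal.ofReal ((40 * √(lam n k)) ^ (1 - 2 / p)) *
          eLpNorm (fun z : ℂ => f z) (ENNReal.ofReal p) volume) ∧
    ∃ f : SchwartzMap ℂ ℂ, Angular k f ∧
      ENNReal.ofReal (lam n k ^ (1 / 2 - 1 / p) / 3000) *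
          eLpNorm (fun z : ℂ => f z) (ENNReal.ofReal p) volume <
        eLpNorm (T n f) (ENNReal.ofReal p) volume := by
  intro n k hn hk
  have hn1 : (1 : ℝ) ≤ n := by exact_mod_cast hn
  have hk' : (k : ℝ) < n := by exact_mod_cast hk
  refine ⟨?_, fun p hp => ?_⟩
  · have hd : (0 : ℝ) < 2 * n - k := by linarith
    unfold lam
    constructor
    · rw [le_div_iff₀ hd]
      rcases min_cases (n : ℝ) (n - k) with ⟨h1, h2⟩ | ⟨h1, h2⟩
      · rw [h1]; nlinarith
      · rw [h1]; nlinarith
    · rw [div_le_iff₀ hd]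
      rcases min_cases (n : ℝ) (n - k) with ⟨h1, h2⟩ | ⟨h1, h2⟩
      · rw [h1]; nlinarith
      · rw [h1]; nlinarith
  -- the parameters
  obtain ⟨N, m, hN, hcs, hlam⟩ : ∃ N m : ℕ, 1 ≤ N ∧ Pool.Agent.L5helper98.AN.Case N m n k ∧
      (N : ℝ) * (N + m) / (2 * N + m) = lam n k := by
    rcases le_or_gt k 0 with h | h
    · refine ⟨n, (-k).toNat, hn, Or.inl ⟨rfl, by omega⟩, ?_⟩
      have e : (((-k).toNat : ℕ) : ℝ) = -k := by
        have : (((-k).toNat : ℕ) : ℤ) = -k := by omega
        exact_mod_cast this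
      unfold lam
      rw [e]
      congr 1
    · refine ⟨(n - k).toNat, k.toNat, by omega, Or.inr ⟨by omega, by omega⟩, ?_⟩
      have e1 : (((n - k).toNat : ℕ) : ℝ) = n - k := by
        have : (((n - k).toNat : ℕ) : ℤ) = n - k := by omega
        exact_mod_cast this
      have e2 : ((k.toNat : ℕ) : ℝ) = k := by
        have : ((k.toNat : ℕ) : ℤ) = k := by omega
        exact_mod_cast this
      unfold lam
      rw [e1, e2]
      congr 1 <;> ring
  have hp1 : 1 < p := by linarith
  have hp0 : 0 < p := by linarith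
  set q : ℝ := p / (p - 1) with hq
  have hpq : p.HolderConjugate q := Real.HolderConjugate.conjExponent hp1
  have hq1 : 1 < q := hpq.symm.lt
  have hq2 : q ≤ 2 := by
    rw [hq, div_le_iff₀ (by linarith)]; linarith
  have hq0 : 0 < q := by linarith
  have hinv : 1 / q = 1 - 1 / p := by
    have := hpq.inv_add_inv_eq_one
    rw [one_div, one_div]; linarith
  constructor
  · intro f hf
    have h1 : (2 : ℝ) / q - 1 = 1 - 2 / p := by
      have e1 : (2 : ℝ) / q = 2 * (1 / q) := by ring
      have e2 : (2 : ℝ) / p = 2 * (1 / p) := by ring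
      rw [e1, e2, hinv]; ring
    have O := Pool.Agent.L5helper98.AN.oneC_upper (m := m) hN hq1 hq2
    rw [h1, hlam] at O
    exact Pool.Agent.L5helper98.AN.upper_gen hcs hpq (by positivity) O f hf
  · by_contra hcon
    push Not at hcon
    have hl0 : 0 ≤ lam n k := by rw [← hlam]; positivity
    have hc : (0 : ℝ) ≤ lam n k ^ (1 / 2 - 1 / p) / 3000 := by positivity
    have O := Pool.Agent.L5helper98.AN.lower_gen hcs hpq hc hcon
    obtain ⟨h, hh, hR, hlt⟩ := Pool.Agent.L5helper98.AN.lower' (m := m) hN hq1.le hq2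
    have e : (1 : ℝ) / q - 1 / 2 = 1 / 2 - 1 / p := by rw [hinv]; ring
    rw [e, hlam] at hlt
    exact absurd (O h hh hR) (not_le.2 hlt)

end Pool.Agent.Results.MP_3dd6d4_an.AngularOrder
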