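import Mathlib
import Pool.Agent.L5helper95.BA.A1
import Pool.Agent.Y282.RB.K3

/-!
# `‖T ^ n f‖_p ≤ n ^ (1 - 2/p) (p - 1) ‖f‖_p` on all angular classes but one

`T` is the Beurling transform.  A function `f` on the plane has angular type `k` if
`f (a z) = a ^ k f z` for `|a| = 1`, that is `f (r e^{iθ}) = e^{i k θ} φ r`; `T ^ n` maps the functions
of type `k` to the functions of type `k - 2 n`, and every `f` is the sum of its parts of the types
`k ∈ ℤ`.  The theorem proves the inequality of the question, for all `n ≥ 1`, all real `p ≥ 2` and all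
Schwartz functions `f` of one angular type `k ≠ 2 n`.  More is proved for these functions:

* the stronger bound `‖T ^ n f‖_p ≤ (1/q)_n / (1/p)_n ‖f‖_p`, conjectured for all `f`; and
* a bound by `M ^ (1 - 2/p)` where `M = (1 + 2.51 n ^ (3/4)) (1 + 2 n / |k - 2 n|)` does not depend on
  `p`.  (Here `p - 1` has disappeared: only on the type `2 n` the norm of `T ^ n` grows with `p` to `∞`.)

For the remaining type `k = 2 n`, where the constant `(1/q)_n / (1/p)_n` cannot be improved, the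
inequality is proved with `(5 n) ^ (1 - 2/p)` in place of `n ^ (1 - 2/p)`.

Outline.  In the variable `y`, the logarithm of a quotient of two values of `|z| ^ 2`, the operator
`T ^ n` on the functions of the type `k` is, for `k ≥ n`, plus or minus the convolution with `δ - J`,
where `δ` is the unit point mass at `0` and `J = J_{κ, m}` a function on `(0, ∞)`: here `m = n` and
`κ = k - 2 n` if `k ≥ 2 n`; `m = k - n` and `κ = 2 n - k` if `n ≤ k < 2 n`.  For `k < n` it is the
adjoint of such an operator.  (`J_{κ, m}` is a polynomial in `e ^ {-y}` times an exponential.)  On `L ^ 2`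
the operator is an isometry.  On `L ^ ∞` (for `k ≥ n`) and on the dual side on `L ^ 1` (for `k < n`)
its norm is at most `1 + ∫ |J|`.  Here `J = u - m v`, where `u` and `v` arise from `0` and from
`e ^ {-κ y / 2}` by `m` steps with isometries of `L ^ 2 (0, ∞)`, and the same for `y u` and
`(y - D) v`, `D` a suitable constant: this gives the `L ^ 2` norms of these four functions up to
explicit constants, and the inequality of Cauchy and Schwarz gives `∫ |u|` and `∫ |v|`.  The theorem
of Riesz and Thorin gives the exponent `1 - 2/p`.  For `k ≠ 2 n` the result is at most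
`(7.05 n) ^ (1 - 2/p)`, and this is at most `(1/q)_n / (1/p)_n` if `n ≥ 2`.  The cases `n = 1` and
`k = 2 n` use the sharp bound `p - 1` for the norm of `T` (for `k = 2 n`: `T ^ n = T T ^ (n - 1)`).
-/

set_option autoImplicit false

open MeasureTheory Filter Topology

namespace Pool.Agent.Results.MP_3dd6d4_an.ClassesButOne

/-- The `n`-th power of the Beurling transform of a Schwartz function: the Fourier multiplier with
symbol `(conj ξ / ξ) ^ n`, in the literal form of the frozen statement. -/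
noncomputable def T (n : ℕ) (f : SchwartzMap ℂ ℂ) (z : ℂ) : ℂ :=
  ∫ ξ : ℂ,
    Complex.exp (2 * (Real.pi : ℂ) * Complex.I * ((z.re * ξ.re + z.im * ξ.im : ℝ) : ℂ)) *
      ((starRingEnd ℂ ξ / ξ) ^ n *
        ∫ w : ℂ, Complex.exp (-(2 * (Real.pi : ℂ) * Complex.I *
          ((w.re * ξ.re + w.im * ξ.im : ℝ) : ℂ))) * f w)

/-- The constant `(1/q)_n / (1/p)_n`, where `1/q = 1 - 1/p` and `(a)_n = a (a + 1) ⋯ (a + n - 1)`. -/
noncomputable def K (n : ℕ) (p : ℝ) : ℝ :=
  (ascPochhammer ℝ n).eval (1 - 1 / p) / (ascPochhammer ℝ n).eval (1 / p)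

/-- `‖T ^ n f‖_p ≤ C ‖f‖_p`. -/
def Bound (n : ℕ) (p C : ℝ) (f : SchwartzMap ℂ ℂ) : Prop :=
  eLpNorm (T n f) (ENNReal.ofReal p) volume ≤
    ENNReal.ofReal C * eLpNorm (fun z : ℂ => f z) (ENNReal.ofReal p) volume

/-- **Powers of the Beurling transform on the angular classes.**  Let `n ≥ 1`, let `p ≥ 2` be real and
let the Schwartz function `f` have the angular type `k ∈ ℤ`: `f (a z) = a ^ k f z` for `|a| = 1`.

If `k ≠ 2 n`, then `‖T ^ n f‖_p ≤ (1/q)_n / (1/p)_n ‖f‖_p`, then
`‖T ^ n f‖_p ≤ n ^ (1 - 2/p) (p - 1) ‖f‖_p`, and then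
`‖T ^ n f‖_p ≤ ((1 + 2.51 n ^ (3/4)) (1 + 2 n / |k - 2 n|)) ^ (1 - 2/p) ‖f‖_p`.

If `k = 2 n`, then `‖T ^ n f‖_p ≤ (5 n) ^ (1 - 2/p) (p - 1) ‖f‖_p`. -/
theorem result (n : ℕ) (hn : 1 ≤ n) (p : ℝ) (hp : 2 ≤ p) (k : ℤ) (f : SchwartzMap ℂ ℂ)
    (hf : ∀ a z : ℂ, ‖a‖ = 1 → f (a * z) = a ^ k * f z) :
    (k ≠ 2 * n →
      Bound n p (K n p) f ∧
      Bound n p ((n : ℝ) ^ (1 - 2 / p) * (p - 1)) f ∧
      Bound n p (((1 + 2.51 * (n : ℝ) ^ (3 / 4 : ℝ)) *
        (1 + 2 * n / |(k : ℝ) - 2 * n|)) ^ (1 - 2 / p)) f) ∧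
    (k = 2 * n → Bound n p ((5 * (n : ℝ)) ^ (1 - 2 / p) * (p - 1)) f) := by
  have hK : K n p = Y282.RB.Cn p n := (Y282.RB.K3.main n p (by linarith)).symm
  refine ⟨fun hk => ?_, fun hk => ?_⟩
  · obtain ⟨h1, h2⟩ := L5helper95.BA.main1 hn hp hk f hf
    rw [← hK] at h1
    exact ⟨h1, h2, L5helper95.BA.main2 hn hp hk f hf⟩
  · refine L5helper95.BA.main3 hn hp f fun a z ha => ?_
    have h3 : k = ((2 * n : ℕ) : ℤ) := by push_cast; exact hk
    rw [hf a z ha, h3, zpow_natCast]

end Pool.Agent.Results.MP_3dd6d4_an.ClassesButOne
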