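import Mathlib
import Pool.Agent.L5helper95.BB.A
import Pool.Agent.Y282.RB.K3

/-!
# The exact norm of `T ^ n` on the functions of one angular type, for `p ≥ 100 n ^ 2`

`T` is the Beurling transform.  A function `f` on the plane has angular type `k` if
`f (a z) = a ^ k f z` for `|a| = 1`, that is `f (r e^{iθ}) = e^{i k θ} φ r`.  The type `2 n` is the
extremal one for `T ^ n`: the functions `z ^ (2 n) |z| ^ (- 2 n - 2/p)`, cut off near `0` and `∞`, show
that the norm of `T ^ n` on it is at least `K = (1/q)_n / (1/p)_n`, the constant which is conjectured to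
be the norm on the whole of `L ^ p` (and which implies the inequality of the question).

Here the norm on the functions of type `2 n` is shown to be exactly `K`, for all `n ≥ 1` and all real
`p ≥ 100 n ^ 2`; with the hand-in ClassesButOne for the other types this gives the inequality with the
constant `K` for the functions of any one angular type.

Outline.  In the variable `log |z| ^ 2` the operator `T ^ n` on the type `2 n` is a chain of `n` filters
of order one with states `X_0, …, X_{n-1}`; in normalised form `γ_j` are the successive signals, `γ_n` is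
the input and `γ_0` the output, and `y_j`, a convex combination of `γ_j` and `γ_{j+1}`, is the
normalised state `X_j`.  With the weights `k_j = (2 j + 1) / ((j + 1/p) (j + 1/q))` let
`Λ = ∑ k_j y_j ^ 2 / ∑ k_j`.  The storage function is `(∑ k_j) Λ ^ (p/2)`; by the starting library
(where `n = 2` is treated) the theorem follows from a pointwise inequality, which for `Λ = 1` reads
`φ (γ_0 ^ 2) ≤ (p/2 - 1) ∑ (γ_j - γ_{j+1}) ^ 2 / (2 j + 1)` with `φ b = b ^ (p/2) - 1 - (p/2) (b - 1)`, if
`γ_0 ≤ 1` or `γ_n ^ 2 ≤ γ_0 ^ 2`.  The new part is its proof.  By `Λ = 1`, `p (γ_0 ^ 2 - 1)` is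
`∑_{j ≥ 1} k_j (1 - y_j ^ 2) + 2 γ_0 (γ_0 - γ_1)` up to small terms.  Let `w ^ 2` be `n ^ 2` times the sum
`∑ (γ_j - γ_{j+1}) ^ 2 / (2 j + 1)`.  If `w` is small this is at most `6 γ_0 w`; for larger `w` it is at
most `10/3 + 2 log (2 γ_0 w) + 2 γ_0 w / n`; and if the sum is at least `1`, then a recursion for
`γ_j / j` and `|γ_n| ≤ γ_0` bound it by `4 log n + 4`.  So `γ_0 ^ p` is at most of the order of `w ^ 2`.
(Numerically the pointwise inequality is false for `4 ≤ n ≤ 30` and `p` between `2` and `n ^ 2 / 2`.)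
-/

set_option autoImplicit false

open MeasureTheory Filter Topology

namespace Pool.Agent.Results.MP_3dd6d4_an.ExactNormLargeP

/-- The `n`-th power of the Beurling transform of a Schwartz function: the Fourier multiplier with
symbol `(conj ξ / ξ) ^ n`, in the literal form of the frozen statement. -/
noncomputable def T (n : ℕ) (f : SchwartzMap ℂ ℂ) (z : ℂ) : ℂ :=
  ∫ ξ : ℂ,
    Complex.exp (2 * (Real.pi : ℂ) * Complex.I * ((z.re * ξ.re + z.im * ξ.im : ℝ) : ℂ)) *
      ((starRingEnd ℂ ξ / ξ) ^ n *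
        ∫ w : ℂ, Complex.exp (-(2 * (Real.pi : ℂ) * Complex.I *
          ((w.re * ξ.re + w.im * ξ.im : ℝ) : ℂ))) * f w)

/-- The constant `(1/q)_n / (1/p)_n`, where `1/q = 1 - 1/p` and `(a)_n = a (a + 1) ⋯ (a + n - 1)`. -/
noncomputable def K (n : ℕ) (p : ℝ) : ℝ :=
  (ascPochhammer ℝ n).eval (1 - 1 / p) / (ascPochhammer ℝ n).eval (1 / p)

/-- `f` is of angular type `k`: `f (a z) = a ^ k f z` for `|a| = 1`. -/
def OfType (k : ℤ) (f : SchwartzMap ℂ ℂ) : Prop := ∀ a z : ℂ, ‖a‖ = 1 → f (a * z) = a ^ k * f z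

/-- **The norm of `T ^ n` on the functions of one angular type, `p ≥ 100 n ^ 2`.**  Let `n ≥ 1` and let
`p ≥ 100 n ^ 2` be real.  For every integer `k` and every Schwartz function `f` of angular type `k`,
`‖T ^ n f‖_p ≤ (1/q)_n / (1/p)_n ‖f‖_p`, and so `‖T ^ n f‖_p ≤ n ^ (1 - 2/p) (p - 1) ‖f‖_p`.  No smaller
constant than `(1/q)_n / (1/p)_n` is possible for the compactly supported functions of type `2 n`. -/
theorem result (n : ℕ) (hn : 1 ≤ n) (p : ℝ) (hp : 100 * (n : ℝ) ^ 2 ≤ p) :
    (∀ (k : ℤ) (f : SchwartzMap ℂ ℂ), OfType k f →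
      eLpNorm (T n f) (ENNReal.ofReal p) volume ≤
          ENNReal.ofReal (K n p) * eLpNorm (fun z : ℂ => f z) (ENNReal.ofReal p) volume ∧
      eLpNorm (T n f) (ENNReal.ofReal p) volume ≤
          ENNReal.ofReal ((n : ℝ) ^ (1 - 2 / p) * (p - 1)) *
            eLpNorm (fun z : ℂ => f z) (ENNReal.ofReal p) volume) ∧
    (∀ c : ℝ, c < K n p → ∃ f : SchwartzMap ℂ ℂ, HasCompactSupport f ∧ OfType (2 * n) f ∧
      ENNReal.ofReal c * eLpNorm (fun z : ℂ => f z) (ENNReal.ofReal p) volume <
        eLpNorm (T n f) (ENNReal.ofReal p) volume) := by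
  have hn1 : (1:ℝ) ≤ n := by exact_mod_cast hn
  have hp2 : 2 ≤ p := by nlinarith
  have hK : K n p = Y282.RB.Cn p n := (Y282.RB.K3.main n p (by linarith)).symm
  refine ⟨fun k f hf => ?_, fun c hc => ?_⟩
  · have h1 := L5helper95.BB.upper hn hp f hf
    have h2 := h1.mono (L5helper95.BB.Cn_le hn hp2)
    rw [← hK] at h1
    exact ⟨h1, h2⟩
  · rw [hK] at hc
    obtain ⟨f, h1, h2, h3⟩ := L5helper95.BB.sharp hn hp2 hc
    refine ⟨f, h1, fun a z ha => ?_, h3⟩
    have e : (2 * (n : ℤ)) = ((2 * n : ℕ) : ℤ) := by push_cast; ring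
    rw [h2 a z ha, e, zpow_natCast]

end Pool.Agent.Results.MP_3dd6d4_an.ExactNormLargeP
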