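import Mathlib
import Pool.Agent.L5helper98.PF.F
import Pool.Agent.N892.BW.ALL
import Pool.Agent.N892.BW.KLG

/-!
# The powers of the Beurling transform near a point, and the best constant of Paley's inequality

Let `p ≥ 2` be real.  Paley's inequality (Pitt's inequality with equal exponents) in the plane is
`‖F Φ‖_p ≤ C ‖ |v| ^ (2 - 4/p) Φ ‖_p`, `F` the Fourier transform.  Let `PC p` be its best constant.

The part of `T ^ n` which maps functions supported in `‖w‖ ≥ 1` to functions on the disc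
`‖z‖ ≤ n ^ (-3/4)` has norm `(1 + o(1)) π ^ (2/p - 1) PC p n ^ (1 - 2/p)` as `n → ∞`, for every real
`p ≥ 2`.  (By scaling the same is true for `‖w‖ ≥ R` and `‖z‖ ≤ R n ^ (-3/4)`.)  So

* the norm of `T ^ n` is at least `(1 - o(1)) π ^ (2/p - 1) PC p n ^ (1 - 2/p)`;
* the inequality of the question for infinitely many `n` (`p` fixed) implies Paley's inequality with
  the constant `π ^ (1 - 2/p) (p - 1)`, and one function `Φ` which violates Paley's inequality with this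
  constant would disprove the inequality of the question for all large `n`;
* the bound `(1/q)_n / (1/p)_n` for infinitely many `n` implies
  `PC p ≤ π ^ (1 - 2/p) Γ(1/p) / Γ(1 - 1/p)`.

Idea: near a point of the small disc the kernel of `T ^ n` is a plane wave in inverted coordinates
`v = 2 n / conj w`; after the inversion and the multiplication with the phase `(conj w / w) ^ n` the
operator is the Fourier transform, with the weight of Paley's inequality.
-/

set_option autoImplicit false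

open MeasureTheory Filter Topology
open scoped ContDiff

namespace Pool.Agent.Results.MP_3dd6d4_an.PaleyConstant

/-- The `n`-th power of the Beurling transform of a Schwartz function: the Fourier multiplier with
symbol `(conj ξ / ξ) ^ n`, in the literal form of the frozen statement. -/
noncomputable def T (n : ℕ) (f : SchwartzMap ℂ ℂ) (z : ℂ) : ℂ :=
  ∫ ξ : ℂ,
    Complex.exp (2 * (Real.pi : ℂ) * Complex.I * ((z.re * ξ.re + z.im * ξ.im : ℝ) : ℂ)) *
      ((starRingEnd ℂ ξ / ξ) ^ n *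
        ∫ w : ℂ, Complex.exp (-(2 * (Real.pi : ℂ) * Complex.I *
          ((w.re * ξ.re + w.im * ξ.im : ℝ) : ℂ))) * f w)

/-- The Fourier transform in the plane. -/
noncomputable def F (Φ : ℂ → ℂ) (x : ℂ) : ℂ :=
  ∫ v : ℂ, Complex.exp (-(2 * (Real.pi : ℂ) * Complex.I *
    ((v.re * x.re + v.im * x.im : ℝ) : ℂ))) * Φ v

/-- Paley's inequality `‖F Φ‖_p ≤ C ‖ |v| ^ (2 - 4/p) Φ ‖_p` for all smooth functions `Φ` with
compact support in the plane without the origin. -/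
def Paley (p C : ℝ) : Prop := ∀ (a b : ℝ) (Φ : ℂ → ℂ), 0 < a → ContDiff ℝ ∞ Φ →
  (∀ v, Φ v ≠ 0 → a ≤ ‖v‖ ∧ ‖v‖ ≤ b) →
  eLpNorm (F Φ) (ENNReal.ofReal p) volume ≤ ENNReal.ofReal C *
    eLpNorm (fun v => ((‖v‖ ^ (2 - 4 / p) : ℝ) : ℂ) * Φ v) (ENNReal.ofReal p) volume

/-- The best constant of Paley's inequality. -/
noncomputable def PC (p : ℝ) : ℝ := sInf {C | 0 ≤ C ∧ Paley p C}

/-- `C` is admissible for the part of `T ^ n` from `‖w‖ ≥ 1` to `‖z‖ ≤ n ^ (-3/4)`: for all smooth `f`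
with compact support in `‖w‖ ≥ 1` the `L ^ p` norm of `T ^ n f` on the disc `‖z‖ ≤ n ^ (-3/4)` is at
most `C ‖f‖_p`. -/
def Near (n : ℕ) (p C : ℝ) : Prop := 0 ≤ C ∧ ∀ (b : ℝ) (f : SchwartzMap ℂ ℂ),
  (∀ w, f w ≠ 0 → 1 ≤ ‖w‖ ∧ ‖w‖ ≤ b) →
  eLpNorm (T n f) (ENNReal.ofReal p) (volume.restrict {z | ‖z‖ ≤ (n : ℝ) ^ (-(3 / 4) : ℝ)}) ≤
    ENNReal.ofReal C * eLpNorm (fun z : ℂ => f z) (ENNReal.ofReal p) volume

/-- The norm of the part of `T ^ n` from `‖w‖ ≥ 1` to `‖z‖ ≤ n ^ (-3/4)`. -/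
noncomputable def NN (n : ℕ) (p : ℝ) : ℝ := sInf {C | Near n p C}

/-- `C` is admissible for `T ^ n` on `L ^ p`. -/
def Adm (n : ℕ) (p C : ℝ) : Prop := 0 ≤ C ∧ ∀ f : SchwartzMap ℂ ℂ,
  eLpNorm (T n f) (ENNReal.ofReal p) volume ≤
    ENNReal.ofReal C * eLpNorm (fun z : ℂ => f z) (ENNReal.ofReal p) volume

open Pool.Agent.L5helper98.PF in
lemma paley_iff {p C : ℝ} (hp : 2 ≤ p) (hC : 0 ≤ C) : Paley p C ↔ PalI p C := by
  have hp0 : 0 < p := by linarith
  have hF : ∀ Φ : ℂ → ℂ, F Φ = FourierTransform.fourier Φ := by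
    intro Φ
    funext x
    unfold F
    rw [Real.fourier_eq']
    refine integral_congr_ae (Eventually.of_forall fun v => ?_)
    simp only [smul_eq_mul]
    congr 2
    rw [Complex.inner]
    simp only [Complex.mul_re, Complex.conj_re, Complex.conj_im]
    push_cast
    ring
  have hW : ∀ Φ : ℂ → ℂ, eLpNorm (fun v => ((‖v‖ ^ (2 - 4 / p) : ℝ) : ℂ) * Φ v)
      (ENNReal.ofReal p) volume = (W p Φ) ^ (1 / p) := by
    intro Φ
    rw [eL hp0]
    congr 1
    unfold W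
    refine lintegral_congr fun v => ?_
    rw [enorm_mul, ENNReal.mul_rpow_of_nonneg _ _ hp0.le, mul_comm]
    congr 1
    have h4 : 0 ≤ 2 - 4 / p := by
      rw [sub_nonneg, div_le_iff₀ hp0]; linarith
    rw [← ofReal_norm, Complex.norm_real, Real.norm_of_nonneg (by positivity), ← ofReal_norm v,
      ENNReal.ofReal_rpow_of_nonneg (by positivity) hp0.le,
      ENNReal.ofReal_rpow_of_nonneg (norm_nonneg _) (by linarith), ← Real.rpow_mul (norm_nonneg _)]
    congr 2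
    field_simp
  have hN : ∀ Φ : ℂ → ℂ, eLpNorm (F Φ) (ENNReal.ofReal p) volume =
      (N p (FourierTransform.fourier Φ)) ^ (1 / p) := by
    intro Φ
    rw [eL hp0, hF]
    rfl
  constructor
  · intro h a b Φ ha hΦ
    have h1 := ENNReal.rpow_le_rpow (h a b Φ ha hΦ.1 hΦ.2) hp0.le
    rw [hN, hW, ← ENNReal.rpow_mul, one_div_mul_cancel hp0.ne', ENNReal.rpow_one,
      ENNReal.mul_rpow_of_nonneg _ _ hp0.le, ← ENNReal.rpow_mul, one_div_mul_cancel hp0.ne',
      ENNReal.rpow_one, ENNReal.ofReal_rpow_of_nonneg hC hp0.le] at h1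
    exact h1
  · intro h a b Φ ha h1 h2
    rw [hN, hW]
    refine (ENNReal.rpow_le_rpow (h a b Φ ha ⟨h1, h2⟩) (by positivity)).trans (le_of_eq ?_)
    rw [ENNReal.mul_rpow_of_nonneg _ _ (by positivity),
      ENNReal.ofReal_rpow_of_nonneg (by positivity) (by positivity), ← Real.rpow_mul hC,
      mul_one_div_cancel hp0.ne', Real.rpow_one]

open Pool.Agent.L5helper98.PF in
lemma near_iff {n : ℕ} {p A : ℝ} (hA : 0 ≤ A) :
    Near n p (A * (n : ℝ) ^ (1 - 2 / p)) ↔ Foc p A n := by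
  constructor
  · intro h b f hf
    exact h.2 b f hf
  · intro h
    exact ⟨by positivity, fun b f hf => h b f hf⟩

lemma step1 {p A : ℝ} (hp : 2 ≤ p) (hA : 0 ≤ A)
    (h : ∃ᶠ n : ℕ in atTop, Near n p (A * (n : ℝ) ^ (1 - 2 / p))) :
    Paley p (Real.pi ^ (1 - 2 / p) * A) := by
  have hpi := Real.pi_pos
  rw [paley_iff hp (by positivity)]
  exact Pool.Agent.L5helper98.PF.bwd hp hA (h.mono fun n hn => (near_iff hA).1 hn)

lemma step2 {p A A' : ℝ} (hp : 2 ≤ p) (hA : 0 ≤ A) (h : Paley p (Real.pi ^ (1 - 2 / p) * A))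
    (hA' : A < A') : ∀ᶠ n : ℕ in atTop, Near n p (A' * (n : ℝ) ^ (1 - 2 / p)) := by
  have hpi := Real.pi_pos
  rw [paley_iff hp (by positivity)] at h
  exact (Pool.Agent.L5helper98.PF.fwd hp hA h hA').mono fun n hn => (near_iff (hA.trans hA'.le)).2 hn

lemma adm_near {n : ℕ} {p C : ℝ} (h : Adm n p C) : Near n p C :=
  ⟨h.1, fun _ f _ => (eLpNorm_mono_measure _ Measure.restrict_le_self).trans (h.2 f)⟩

lemma near_mono {n : ℕ} {p C C' : ℝ} (h : Near n p C) (hC : C ≤ C') : Near n p C' :=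
  ⟨h.1.trans hC, fun b f hf => (h.2 b f hf).trans
    (mul_le_mul' (ENNReal.ofReal_le_ofReal hC) le_rfl)⟩

lemma paley_mono {p C C' : ℝ} (h : Paley p C) (hC : C ≤ C') : Paley p C' :=
  fun a b Φ ha h1 h2 => (h a b Φ ha h1 h2).trans (mul_le_mul' (ENNReal.ofReal_le_ofReal hC) le_rfl)

lemma step3 {p A : ℝ} (hp : 2 ≤ p) (hA : 0 ≤ A)
    (h : ∃ᶠ n : ℕ in atTop, Adm n p (A * (n : ℝ) ^ (1 - 2 / p))) :
    Paley p (Real.pi ^ (1 - 2 / p) * A) :=
  step1 hp hA (h.mono fun _ hn => adm_near hn)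

lemma uncond {p : ℝ} (hp : 2 ≤ p) : Paley p (Real.pi ^ (1 - 2 / p) * (1.033 * (p - 1))) := by
  refine step3 hp (by norm_num; linarith) ?_
  obtain ⟨n₀, h⟩ := Pool.Agent.N892.BW.KLG.allq p hp
  refine (eventually_atTop.2 ⟨n₀, fun n hn => ?_⟩).frequently
  refine ⟨mul_nonneg (by norm_num; linarith) (Real.rpow_nonneg (Nat.cast_nonneg n) _), fun f => ?_⟩
  have h1 := h n hn f
  have e : 1.033 * ((n : ℝ) ^ (1 - 2 / p) * (p - 1)) =
      1.033 * (p - 1) * (n : ℝ) ^ (1 - 2 / p) := by ring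
  rw [e] at h1
  exact h1

lemma lim {p : ℝ} (hp : 2 ≤ p) :
    Tendsto (fun n : ℕ => NN n p / (n : ℝ) ^ (1 - 2 / p)) atTop
      (𝓝 (Real.pi ^ (2 / p - 1) * PC p)) := by
  have hpi := Real.pi_pos
  have hp0 : 0 < p := by linarith
  have hx : 0 < Real.pi ^ (1 - 2 / p) := Real.rpow_pos_of_pos hpi _
  have hxy : Real.pi ^ (2 / p - 1) * Real.pi ^ (1 - 2 / p) = 1 := by
    rw [← Real.rpow_add hpi]
    rw [show 2 / p - 1 + (1 - 2 / p) = 0 by ring, Real.rpow_zero]
  generalize hy : Real.pi ^ (2 / p - 1) = y at hxy ⊢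
  have hy0 : 0 < y := by rw [← hy]; exact Real.rpow_pos_of_pos hpi _
  obtain ⟨x, hx'⟩ : ∃ x, x = Real.pi ^ (1 - 2 / p) := ⟨_, rfl⟩
  rw [← hx'] at hx hxy
  have hbd : BddBelow {C | 0 ≤ C ∧ Paley p C} := ⟨0, fun C hC => hC.1⟩
  have hne : {C | 0 ≤ C ∧ Paley p C}.Nonempty :=
    ⟨_, mul_nonneg (hx' ▸ hx.le) (by norm_num; linarith), uncond hp⟩
  have hPC0 : 0 ≤ PC p := Real.sInf_nonneg fun C hC => hC.1
  have hbd' : ∀ n : ℕ, BddBelow {C | Near n p C} := fun n => ⟨0, fun C hC => hC.1⟩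
  rw [Metric.tendsto_atTop]
  intro ε hε
  -- upper bound
  have hup : ∀ᶠ n : ℕ in atTop, NN n p / (n : ℝ) ^ (1 - 2 / p) < y * PC p + ε := by
    have h1 : PC p < PC p + x * (ε / 4) := by
      have : 0 < x * (ε / 4) := by positivity
      linarith
    obtain ⟨C, ⟨hC0, hC⟩, hCl⟩ := exists_lt_of_csInf_lt hne h1
    have h2 : Paley p (x * (y * C)) := by
      rw [← mul_assoc, mul_comm x y, hxy, one_mul]
      exact hC
    rw [hx'] at h2
    filter_upwards [step2 hp (by positivity) h2 (lt_add_of_pos_right _ (by positivity : 0 < ε / 4)),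
      eventually_ge_atTop 1] with n hn hn1
    have hn0 : (0 : ℝ) < n := by exact_mod_cast hn1
    have hnp : 0 < (n : ℝ) ^ (1 - 2 / p) := Real.rpow_pos_of_pos hn0 _
    have h3 : NN n p ≤ (y * C + ε / 4) * (n : ℝ) ^ (1 - 2 / p) := csInf_le (hbd' n) hn
    have h4 : NN n p / (n : ℝ) ^ (1 - 2 / p) ≤ y * C + ε / 4 := by
      rwa [div_le_iff₀ hnp]
    have h5 : y * C ≤ y * PC p + ε / 4 := by
      have h6 := mul_le_mul_of_nonneg_left hCl.le hy0.le
      have h7 : y * (x * (ε / 4)) = ε / 4 := by rw [← mul_assoc, hxy, one_mul]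
      rw [mul_add, h7] at h6
      exact h6
    linarith
  -- lower bound
  have hlo : ∀ᶠ n : ℕ in atTop, y * PC p - ε < NN n p / (n : ℝ) ^ (1 - 2 / p) := by
    by_contra hcon
    rw [not_eventually] at hcon
    have hfr : ∃ᶠ n : ℕ in atTop, Near n p ((y * PC p - ε / 2) * (n : ℝ) ^ (1 - 2 / p)) := by
      refine (hcon.and_eventually ((eventually_ge_atTop 1).and
        (step2 hp (mul_nonneg hy0.le hne.some_mem.1) (hx' ▸ (by
          rw [← mul_assoc, mul_comm x y, hxy, one_mul]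
          exact hne.some_mem.2) : Paley p (Real.pi ^ (1 - 2 / p) * (y * hne.some)))
          (lt_add_one _)))).mono ?_
      rintro n ⟨h1, h2, h3⟩
      have hn0 : (0 : ℝ) < n := by exact_mod_cast h2
      have hnp : 0 < (n : ℝ) ^ (1 - 2 / p) := Real.rpow_pos_of_pos hn0 _
      rw [not_lt, div_le_iff₀ hnp] at h1
      have h4 : NN n p < (y * PC p - ε / 2) * (n : ℝ) ^ (1 - 2 / p) :=
        h1.trans_lt (mul_lt_mul_of_pos_right (by linarith) hnp)
      have hne2 : {C | Near n p C}.Nonempty := ⟨_, h3⟩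
      obtain ⟨C, hC, hCl⟩ := exists_lt_of_csInf_lt hne2 h4
      exact near_mono hC hCl.le
    have hA : 0 ≤ y * PC p - ε / 2 := by
      obtain ⟨n, h1, h2⟩ := (hfr.and_eventually (eventually_ge_atTop 1)).exists
      have hn0 : (0 : ℝ) < n := by exact_mod_cast h2
      have hnp : 0 < (n : ℝ) ^ (1 - 2 / p) := Real.rpow_pos_of_pos hn0 _
      by_contra hneg
      push Not at hneg
      have := mul_neg_of_neg_of_pos hneg hnp
      have := h1.1
      linarith
    have h5 := step1 hp hA hfr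
    rw [← hx'] at h5
    have h6 : PC p ≤ x * (y * PC p - ε / 2) := csInf_le hbd ⟨mul_nonneg hx.le hA, h5⟩
    have h7 : x * (y * PC p - ε / 2) = PC p - x * (ε / 2) := by
      rw [mul_sub, ← mul_assoc, mul_comm x y, hxy, one_mul]
    rw [h7] at h6
    have : 0 < x * (ε / 2) := by positivity
    linarith
  obtain ⟨n₁, h1⟩ := eventually_atTop.1 (hup.and hlo)
  refine ⟨n₁, fun n hn => ?_⟩
  rw [Real.dist_eq, abs_lt]
  obtain ⟨h2, h3⟩ := h1 n hn
  constructor <;> linarith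

/-- Let `p ≥ 2` be real, `PC p` the best constant of Paley's inequality.
(1) The norm `NN n p` of the part of `T ^ n` from `‖w‖ ≥ 1` to `‖z‖ ≤ n ^ (-3/4)` satisfies
`NN n p / n ^ (1 - 2/p) → π ^ (2/p - 1) PC p` as `n → ∞`.
(2) For all `c < π ^ (2/p - 1) PC p` and all large `n` the constant `c n ^ (1 - 2/p)` is not admissible
for `T ^ n` on `L ^ p`.
(3) If for infinitely many `n` the constant `A n ^ (1 - 2/p)` is admissible for `T ^ n` on `L ^ p`, then
Paley's inequality holds with the constant `π ^ (1 - 2/p) A`.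
(4) If the inequality of the question holds for infinitely many `n`, then Paley's inequality holds with
the constant `π ^ (1 - 2/p) (p - 1)`.
(5) If `(1/q)_n / (1/p)_n` is admissible for infinitely many `n`, then
`PC p ≤ π ^ (1 - 2/p) Γ(1/p) / Γ(1 - 1/p)`.
(6) Unconditionally, Paley's inequality holds with the constant `1.033 π ^ (1 - 2/p) (p - 1)`. -/
theorem result (p : ℝ) (hp : 2 ≤ p) :
    Tendsto (fun n : ℕ => NN n p / (n : ℝ) ^ (1 - 2 / p)) atTop
      (𝓝 (Real.pi ^ (2 / p - 1) * PC p)) ∧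
    (∀ c : ℝ, c < Real.pi ^ (2 / p - 1) * PC p →
      ∀ᶠ n : ℕ in atTop, ¬ Adm n p (c * (n : ℝ) ^ (1 - 2 / p))) ∧
    (∀ A : ℝ, 0 ≤ A → (∃ᶠ n : ℕ in atTop, Adm n p (A * (n : ℝ) ^ (1 - 2 / p))) →
      Paley p (Real.pi ^ (1 - 2 / p) * A)) ∧
    ((∃ᶠ n : ℕ in atTop, Adm n p ((n : ℝ) ^ (1 - 2 / p) * (p - 1))) →
      Paley p (Real.pi ^ (1 - 2 / p) * (p - 1))) ∧
    ((∃ᶠ n : ℕ in atTop, Adm n p (∏ j ∈ Finset.range n, ((1 - 1 / p + j) / (1 / p + j)))) →
      PC p ≤ Real.pi ^ (1 - 2 / p) * (Real.Gamma (1 / p) / Real.Gamma (1 - 1 / p))) ∧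
    Paley p (Real.pi ^ (1 - 2 / p) * (1.033 * (p - 1))) := by
  have hpi := Real.pi_pos
  have hp0 : 0 < p := by linarith
  refine ⟨lim hp, ?_, fun A hA h => step3 hp hA h, ?_, ?_, uncond hp⟩
  · intro c hc
    have h1 := (lim hp).eventually (lt_mem_nhds hc)
    filter_upwards [h1, eventually_ge_atTop 1] with n hn hn1 hadm
    have hn0 : (0 : ℝ) < n := by exact_mod_cast hn1
    have hnp : 0 < (n : ℝ) ^ (1 - 2 / p) := Real.rpow_pos_of_pos hn0 _
    have h2 : NN n p ≤ c * (n : ℝ) ^ (1 - 2 / p) := csInf_le ⟨0, fun C hC => hC.1⟩ (adm_near hadm)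
    rw [lt_div_iff₀ hnp] at hn
    linarith
  · intro h
    refine step3 hp (by linarith) (h.mono fun n hn => ?_)
    rwa [mul_comm] at hn
  · intro h
    have hs0 : (0 : ℝ) < 1 / p := by positivity
    have hs1 : (1 : ℝ) / p < 1 := by
      rw [div_lt_one hp0]; linarith
    have hG : 0 < Real.Gamma (1 / p) / Real.Gamma (1 - 1 / p) :=
      div_pos (Real.Gamma_pos_of_pos hs0) (Real.Gamma_pos_of_pos (by linarith))
    have h1 := Pool.Agent.N892.BW.ALL.asr (1 / p) hs0 hs1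
    have hx : 0 < Real.pi ^ (1 - 2 / p) := Real.rpow_pos_of_pos hpi _
    refine le_of_forall_pos_lt_add fun ε hε => ?_
    obtain ⟨δ, hδ⟩ : ∃ δ : ℝ, δ = ε / (2 * Real.pi ^ (1 - 2 / p) *
      (Real.Gamma (1 / p) / Real.Gamma (1 - 1 / p))) := ⟨_, rfl⟩
    have hδ0 : 0 < δ := by rw [hδ]; positivity
    have hδ1 : (1 : ℝ) / (1 + δ) < 1 := by
      rw [div_lt_one (by linarith)]; linarith
    have h2 := h1.eventually (lt_mem_nhds hδ1)
    have h3 : ∃ᶠ n : ℕ in atTop, Adm n p (((1 + δ) * (Real.Gamma (1 / p) / Real.Gamma (1 - 1 / p))) *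
        (n : ℝ) ^ (1 - 2 / p)) := by
      refine (h.and_eventually (h2.and (eventually_ge_atTop 1))).mono ?_
      rintro n ⟨h4, h5, h6⟩
      have hn0 : (0 : ℝ) < n := by exact_mod_cast h6
      have hnp : 0 < (n : ℝ) ^ (1 - 2 / p) := Real.rpow_pos_of_pos hn0 _
      have e2 : (1 : ℝ) - 2 * (1 / p) = 1 - 2 / p := by ring
      have hQ : Pool.Agent.N892.BW.Qn n (1 / p) =
        ∏ j ∈ Finset.range n, ((1 - 1 / p + j) / (1 / p + j)) := rfl
      have hQ0 : 0 < ∏ j ∈ Finset.range n, ((1 - 1 / p + (j : ℝ)) / (1 / p + j)) := by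
        refine Finset.prod_pos fun j _ => div_pos ?_ ?_
        · have : (0 : ℝ) ≤ j := Nat.cast_nonneg j
          linarith
        · positivity
      rw [hQ, e2] at h5
      have h7 : ∏ j ∈ Finset.range n, ((1 - 1 / p + (j : ℝ)) / (1 / p + j)) ≤
          (1 + δ) * (Real.Gamma (1 / p) / Real.Gamma (1 - 1 / p)) * (n : ℝ) ^ (1 - 2 / p) := by
        rw [div_lt_div_iff₀ (by linarith) hQ0, one_mul] at h5
        have : Pool.Agent.N892.BW.Gs (1 / p) = Real.Gamma (1 / p) / Real.Gamma (1 - 1 / p) := rfl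
        rw [this] at h5
        linarith
      exact ⟨hQ0.le.trans h7, fun f => (h4.2 f).trans
        (mul_le_mul' (ENNReal.ofReal_le_ofReal h7) le_rfl)⟩
    have h4 := step3 hp (by positivity) h3
    have h5 : PC p ≤ Real.pi ^ (1 - 2 / p) *
        ((1 + δ) * (Real.Gamma (1 / p) / Real.Gamma (1 - 1 / p))) :=
      csInf_le ⟨0, fun C hC => hC.1⟩ ⟨by positivity, h4⟩
    have h6 : Real.pi ^ (1 - 2 / p) * (δ * (Real.Gamma (1 / p) / Real.Gamma (1 - 1 / p))) = ε / 2 := by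
      rw [hδ]
      have h8 := hG.ne'
      generalize Real.Gamma (1 / p) / Real.Gamma (1 - 1 / p) = g at h8 ⊢
      field_simp
    have h7 : Real.pi ^ (1 - 2 / p) * ((1 + δ) * (Real.Gamma (1 / p) / Real.Gamma (1 - 1 / p))) =
        Real.pi ^ (1 - 2 / p) * (Real.Gamma (1 / p) / Real.Gamma (1 - 1 / p)) + ε / 2 := by
      rw [← h6]
      ring
    linarith

end Pool.Agent.Results.MP_3dd6d4_an.PaleyConstant
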